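import Mathlib
import Pool.Agent.H51.CycNat

/-!
In the Hardy space `H²` of the polydisc of any dimension `d ≥ 2` there is a function `f` whose
reciprocal also lies in `H²` and which is not shift-cyclic (Q1 of MP_bdd809_an is `d = 2`).
-/

set_option autoImplicit false
open MeasureTheory
open scoped ENNReal

namespace Pool.Agent.Results.MP_bdd809_an.InvertibleNotCyclic

/-- The open unit polydisc in dimension `d`. -/
def polydisc (d : ℕ) : Set (Fin d → ℂ) := {z | ∀ j, ‖z j‖ < 1}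

/-- The normalized Lebesgue measure of the `d`-torus, in terms of the angles in `(0, 2π]`. -/
noncomputable def torus (d : ℕ) : Measure (Fin d → ℝ) :=
  Measure.pi fun _ => (ENNReal.ofReal (2 * Real.pi))⁻¹ • (volume.restrict (Set.Ioc 0 (2 * Real.pi)))

/-- `M_p(r, f)`: the mean of order `p` of `f` over the torus of radius `r`. -/
noncomputable def mean {d : ℕ} (p r : ℝ) (f : (Fin d → ℂ) → ℂ) : ℝ≥0∞ :=
  (∫⁻ t, ‖f (fun j => (r : ℂ) * Complex.exp (t j * Complex.I))‖ₑ ^ p ∂(torus d)) ^ (1 / p)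

/-- The norm of the Hardy space `H^p`: the supremum of `M_p(r, f)` over `0 < r < 1` (for
holomorphic `f` this is the limit for `r → 1`, because the means increase with `r`). -/
noncomputable def hardyNorm {d : ℕ} (p : ℝ) (f : (Fin d → ℂ) → ℂ) : ℝ≥0∞ :=
  ⨆ r ∈ Set.Ioo (0 : ℝ) 1, mean p r f

/-- `f` belongs to `H^p` of the polydisc: it is holomorphic there and has finite norm. -/
def MemHardy {d : ℕ} (p : ℝ) (f : (Fin d → ℂ) → ℂ) : Prop :=
  DifferentiableOn ℂ f (polydisc d) ∧ hardyNorm p f < ⊤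

/-- `f` is shift-cyclic in `H^p`: every element of `H^p` is a limit, in the norm of `H^p`, of
products of polynomials with `f`. -/
def ShiftCyclic {d : ℕ} (p : ℝ) (f : (Fin d → ℂ) → ℂ) : Prop :=
  ∀ h : (Fin d → ℂ) → ℂ, MemHardy p h → ∀ ε : ℝ≥0∞, 0 < ε →
    ∃ P : MvPolynomial (Fin d) ℂ, hardyNorm p (fun z => MvPolynomial.eval z P * f z - h z) < ε

theorem mean_eq {d : ℕ} (r : ℝ) (f : (Fin d → ℂ) → ℂ) :
    mean 2 r f = (Pool.Agent.H51.CycNat.mean2 r f) ^ (1 / 2 : ℝ) := by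
  unfold mean
  congr 1
  refine lintegral_congr fun t => ?_
  rw [← ofReal_norm, ENNReal.ofReal_rpow_of_nonneg (norm_nonneg _) (by norm_num), Real.rpow_two]
  rfl

/-- For every `d ≥ 2` there is `f` in `H²` of the polydisc of dimension `d`, without zeros and with
`1/f` in `H²`, which is not shift-cyclic in `H²`. -/
theorem result (d : ℕ) (hd : 2 ≤ d) : ∃ f : (Fin d → ℂ) → ℂ,
    MemHardy 2 f ∧ (∀ z ∈ polydisc d, f z ≠ 0) ∧ MemHardy 2 (fun z => (f z)⁻¹) ∧
      ¬ ShiftCyclic 2 f := by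
  have h01 : (⟨0, by omega⟩ : Fin d) ≠ ⟨1, by omega⟩ := by
    intro h
    have := congrArg Fin.val h
    simp at this
  obtain ⟨f, g, hf, hg, hfg, ⟨M, hM⟩, η, hη, hP⟩ := Pool.Agent.H51.CycNat.exists_fn h01
  have hinv : ∀ z ∈ polydisc d, (f z)⁻¹ = g z := fun z hz =>
    inv_eq_of_mul_eq_one_right (hfg z hz)
  have hbd : ∀ u : (Fin d → ℂ) → ℂ, (∀ r : ℝ, 0 ≤ r → r < 1 →
      Pool.Agent.H51.CycNat.mean2 r u ≤ ENNReal.ofReal M) → hardyNorm 2 u < ⊤ := by
    intro u hu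
    have h1 : hardyNorm 2 u ≤ (ENNReal.ofReal M) ^ (1 / 2 : ℝ) := by
      unfold hardyNorm
      refine iSup₂_le fun r hr => ?_
      rw [mean_eq]
      exact ENNReal.rpow_le_rpow (hu r hr.1.le hr.2) (by norm_num)
    exact h1.trans_lt (ENNReal.rpow_lt_top_of_nonneg (by norm_num) ENNReal.ofReal_ne_top)
  have hnormg : ∀ r : ℝ, 0 ≤ r → r < 1 →
      Pool.Agent.H51.CycNat.mean2 r (fun z => (f z)⁻¹) = Pool.Agent.H51.CycNat.mean2 r g := by
    intro r hr0 hr1
    unfold Pool.Agent.H51.CycNat.mean2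
    refine lintegral_congr fun t => ?_
    have hz : Pool.Agent.H51.CycNat.pt r t ∈ polydisc d := by
      intro j
      rw [Pool.Agent.H51.CycNat.norm_pt hr0]
      exact hr1
    simp only [hinv _ hz]
  refine ⟨f, ⟨hf, hbd f fun r h0 h1 => (hM r h0 h1).1⟩, ?_, ⟨?_, ?_⟩, ?_⟩
  · intro z hz h0
    have h1 := hfg z hz
    rw [h0, zero_mul] at h1
    exact zero_ne_one h1
  · exact hg.congr fun z hz => hinv z hz
  · refine hbd _ fun r h0 h1 => ?_
    rw [hnormg r h0 h1]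
    exact (hM r h0 h1).2
  · intro hc
    have h1 : MemHardy 2 (fun _ : Fin d → ℂ => (1 : ℂ)) := by
      refine ⟨differentiableOn_const _, ?_⟩
      have h2 : hardyNorm 2 (fun _ : Fin d → ℂ => (1 : ℂ)) ≤ 1 := by
        unfold hardyNorm
        refine iSup₂_le fun r _ => ?_
        rw [mean_eq]
        unfold Pool.Agent.H51.CycNat.mean2
        simp
      exact h2.trans_lt ENNReal.one_lt_top
    obtain ⟨P, hPlt⟩ := hc _ h1 ((ENNReal.ofReal η) ^ (1 / 2 : ℝ)) (by
      rw [ENNReal.ofReal_rpow_of_pos hη]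
      exact ENNReal.ofReal_pos.2 (Real.rpow_pos_of_pos hη _))
    obtain ⟨r, hr0, hr1, hr⟩ := hP P
    have h3 : (ENNReal.ofReal η) ^ (1 / 2 : ℝ)
        ≤ hardyNorm 2 (fun z => MvPolynomial.eval z P * f z - (1 : ℂ)) := by
      unfold hardyNorm
      refine le_trans ?_ (le_iSup₂ (f := fun (r : ℝ) (_ : r ∈ Set.Ioo (0 : ℝ) 1) =>
        mean 2 r (fun z => MvPolynomial.eval z P * f z - (1 : ℂ))) r ⟨hr0, hr1⟩)
      rw [mean_eq]
      exact ENNReal.rpow_le_rpow hr (by norm_num)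
    exact absurd hPlt (not_lt.2 h3)

end Pool.Agent.Results.MP_bdd809_an.InvertibleNotCyclic
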